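import Mathlib

/-!
Codimension two ideals of the group algebra (MP_c2df89_an): targets which do not depend on the
group algebra.
-/

set_option autoImplicit false

namespace Pool.Agent.H14.L1

open Filter Topology

/-- (NUM) A bounded function which is almost right harmonic and almost left twisted harmonic is
almost constant. -/
def T_NUM : Prop :=
  ∀ (G : Type) [Group G] (p : G → ℝ), (∀ x, 0 ≤ p x) → HasSum p 1 →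
    ∀ γ : G → ℂ, (∀ x, ‖γ x‖ ≤ 1) → ∀ ψ : G → ℂ, (∀ x, ‖ψ x‖ ≤ 1) →
    ∀ (δ₁ δ₂ η : ℝ) (N : ℕ), 0 < η → 0 < N →
    (∀ x, ‖∑' s, (p s : ℂ) * ψ (x * s) - ψ x‖ ≤ δ₁) →
    (∀ x, ‖∑' t, (p t : ℂ) * γ t * ψ (t * x) - ψ x‖ ≤ δ₂) →
    ∑' s, p s * ‖ψ s - ψ 1‖ ≤ (η + (1 / N + 2 * δ₁) / η) / 2 + 2 * N * δ₂

/-- (CFR) Factorisation on the right. -/
def T_CFR : Prop :=
  ∀ (A : Type) [NormedRing A] [NormOneClass A] [NormedAlgebra ℂ A] [CompleteSpace A]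
    (d : ℕ → A), (∀ n, ‖d n‖ ≤ 1) → (∀ m n, d m * d n = d n * d m) →
    ∀ l : A, Tendsto (fun k => l * d k) atTop (𝓝 0) →
    ∀ W V : Submodule ℂ A, IsClosed (W : Set A) → IsClosed (V : Set A) →
    (∀ a, l * a ∈ W) → (∀ n, 1 - d n ∈ V) → ∃ y ∈ W, ∃ b ∈ V, l = y * b

/-- (CFL) Factorisation on the left. -/
def T_CFL : Prop :=
  ∀ (A : Type) [NormedRing A] [NormOneClass A] [NormedAlgebra ℂ A] [CompleteSpace A]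
    (c : ℕ → A), (∀ n, ‖c n‖ ≤ 1) → (∀ m n, c m * c n = c n * c m) →
    ∀ r : A, Tendsto (fun k => c k * r) atTop (𝓝 0) →
    ∀ W V : Submodule ℂ A, IsClosed (W : Set A) → IsClosed (V : Set A) →
    (∀ a, a * r ∈ W) → (∀ n, 1 - c n ∈ V) → ∃ y ∈ W, ∃ b ∈ V, r = b * y

/-- (CES) Cesaro means. -/
def T_CES : Prop :=
  ∀ (A : Type) [NormedRing A] [NormOneClass A] [NormedAlgebra ℂ A] (q : A), ‖q‖ ≤ 1 →
    ∀ c : ℕ → A, (∀ n, c n = ((n : ℂ) + 1)⁻¹ • ∑ j ∈ Finset.range (n + 1), q ^ j) →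
    (∀ n, ‖c n‖ ≤ 1) ∧ (∀ m n, c m * c n = c n * c m) ∧
    (∀ n, q * c n = c n * q) ∧ (∀ n, ‖q * c n - c n‖ ≤ 2 / ((n : ℝ) + 1)) ∧
    (∀ m, Tendsto (fun k => (1 - c m) * c k) atTop (𝓝 0)) ∧
    ∀ φ : A →ₐ[ℂ] ℂ, φ q = 1 → ∀ n, φ (c n) = 1

/-- (DEC) The decomposition. -/
def T_DEC : Prop :=
  ∀ (A : Type) [NormedRing A] [NormedAlgebra ℂ A] [CompleteSpace A] (c d : ℕ → A),
    (∀ n, ‖c n‖ ≤ 1) → (∀ n, ‖d n‖ ≤ 1) →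
    (∀ m, Tendsto (fun k => c k * (1 - c m)) atTop (𝓝 0)) →
    (∀ n, Tendsto (fun k => (1 - d n) * d k) atTop (𝓝 0)) →
    ∀ I : Submodule ℂ A, IsClosed (I : Set A) → (∀ f ∈ I, ∀ a, f * a ∈ I ∧ a * f ∈ I) →
    (∀ f ∈ I, ∀ ε : ℝ, 0 < ε → ∃ m n, ‖c m * f * d n‖ ≤ ε) →
    ∀ f ∈ I, ∃ l ∈ I, ∃ r ∈ I, f = l + r ∧ Tendsto (fun k => l * d k) atTop (𝓝 0) ∧
      Tendsto (fun k => c k * r) atTop (𝓝 0)

/-- factorisations of the elements of `ker α ⊓ ker β` -/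
def Fac {A : Type} [Ring A] [Algebra ℂ A] (α β : A →ₐ[ℂ] ℂ) : Prop :=
  ∀ f, α f = 0 → β f = 0 → ∃ y b b' y' : A, f = y * b + b' * y' ∧ α y = 0 ∧ β y = 0 ∧
    α y' = 0 ∧ β y' = 0 ∧ β b = 0 ∧ α b' = 0

/-- (ALG) The algebra at the end. -/
def T_ALG : Prop :=
  ∀ (A : Type) [Ring A] [Algebra ℂ A] (α β : A →ₐ[ℂ] ℂ), α ≠ β →
    Fac α β → Fac β α → Fac α α → Fac β β → ∀ I : Submodule ℂ A,
    (∀ x, x ∈ I ↔ α x = 0 ∧ β x = 0) →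
    Submodule.span ℂ {h | ∃ a ∈ I, ∃ b ∈ I, h = a * b} = I

/-- (COD) Closed ideals of codimension two; `g` are the group elements. -/
def T_COD : Prop :=
  ∀ (A : Type) [NormedRing A] [NormOneClass A] [NormedAlgebra ℂ A] [CompleteSpace A]
    (g : Set A), (∀ x ∈ g, ‖x‖ ≤ 1) → (∀ x ∈ g, ∃ y ∈ g, x * y = 1 ∧ y * x = 1) →
    (∀ f : A →L[ℂ] ℂ, (∀ x ∈ g, f x = 0) → f = 0) →
    ∀ I : Submodule ℂ A, IsClosed (I : Set A) → (∀ f ∈ I, ∀ a, f * a ∈ I ∧ a * f ∈ I) →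
    Module.finrank ℂ (A ⧸ I) = 2 →
    ∃ α β : A →ₐ[ℂ] ℂ, α ≠ β ∧ ∀ x, x ∈ I ↔ α x = 0 ∧ β x = 0

/-- (PRB) a probability with full support -/
def T_PRB : Prop :=
  ∀ (G : Type) [Countable G] [Nonempty G], ∃ p : G → ℝ, (∀ x, 0 < p x) ∧ HasSum p 1

end Pool.Agent.H14.L1
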